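import Pool.Agent.V11191.LC.Greedy

set_option autoImplicit false

open MeasureTheory Filter Topology
open scoped Real Pointwise

namespace Pool.Agent.Results.MP_5c394f_nt.EveryRatio

/-- `S_n(ω) = ∑_{k < n} cos(2π a_k ω)` -/
noncomputable def S (a : ℕ → ℕ) (n : ℕ) (ω : ℝ) : ℝ :=
  ∑ k ∈ Finset.range n, Real.cos (2 * π * a k * ω)

/-- The `m`-th cumulant of a random variable `X` on `[0,1]` with Lebesgue measure:
the `m`-th derivative at `0` of `log E[exp (t X)]`. -/
noncomputable def cumulant (m : ℕ) (X : ℝ → ℝ) : ℝ :=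
  iteratedDeriv m (fun t => Real.log (∫ ω in Set.Icc (0 : ℝ) 1, Real.exp (t * X ω))) 0

/-- `I_0(t) = ∑_j (t/2)^{2j} / (j!)^2`, the moment generating function of the arcsine law. -/
noncomputable def I0 (t : ℝ) : ℝ := ∑' j : ℕ, (t / 2) ^ (2 * j) / ((j.factorial : ℝ) ^ 2)

/-- `κ̃_m`: the `m`-th cumulant of one summand of the independent model. -/
noncomputable def kappaTilde (m : ℕ) : ℝ := iteratedDeriv m (fun t => Real.log (I0 t)) 0

open Pool.Agent.V11191.LC in
lemma main (η : ℝ) (hη : 1 < η) : ∃ a : ℕ → ℕ, StrictMono a ∧ (∀ k, 0 < a k) ∧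
    Tendsto (fun k => (a (k + 1) : ℝ) / a k) atTop (𝓝 η) ∧
    ∀ m : ℕ, ∃ N : ℕ, ∀ n, N ≤ n →
      Pool.Agent.V11191.LC.cumulant m (Pool.Agent.V11191.LC.S a (n + 1)) =
        Pool.Agent.V11191.LC.cumulant m (Pool.Agent.V11191.LC.S a n) +
          Pool.Agent.V11191.LC.kappaTilde m := by
  obtain ⟨a, ha0, hpos, ha⟩ := exists_seq η hη
  have hposR : ∀ n, (0 : ℝ) < a n := fun n => by exact_mod_cast hpos n
  have hmono : StrictMono a := by
    refine strictMono_nat_of_lt_succ fun n => ?_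
    have h1 := (ha n).1
    have h2 := hposR n
    have : (a n : ℝ) < a (n + 1) := by nlinarith
    exact_mod_cast this
  have hcard : ∀ n, ((Finset.range (n + 1)).image a).card = n + 1 := fun n => by
    rw [Finset.card_image_of_injective _ hmono.injective, Finset.card_range]
  have hgrow : ∀ n, η ^ n ≤ (a n : ℝ) := by
    intro n
    induction n with
    | zero => simp [ha0]
    | succ n ih =>
      rw [pow_succ']
      exact (mul_le_mul_of_nonneg_left ih (by linarith)).trans (ha n).1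
  -- `mm → ∞`
  have hmm : ∀ M : ℕ, ∀ᶠ n in atTop, M ≤ mm (n + 1) (a n) := by
    intro M
    have hlo := isLittleO_pow_const_const_pow_of_one_lt (R := ℝ) M hη
    have hc : (0 : ℝ) < 1 / (M * (M * 5 ^ M) + 1) := by positivity
    filter_upwards [hlo.def hc, eventually_ge_atTop M, eventually_ge_atTop 1] with n h1 h2 h3
    unfold mm
    refine Nat.le_findGreatest (by omega) ?_
    have h4 : (2 * (n + 1) + 1) ≤ 5 * n := by omega
    have h5 : M * G (n + 1) M ≤ M * (M * 5 ^ M) * n ^ M := by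
      unfold G
      calc M * (M * (2 * (n + 1) + 1) ^ M) ≤ M * (M * (5 * n) ^ M) := by gcongr
        _ = M * (M * 5 ^ M) * n ^ M := by rw [mul_pow]; ring
    rw [Real.norm_of_nonneg (by positivity), Real.norm_of_nonneg (by positivity)] at h1
    have h6 : (M * (M * 5 ^ M) : ℝ) * (n : ℝ) ^ M ≤ η ^ n := by
      have h7 : (0 : ℝ) < M * (M * 5 ^ M) + 1 := by positivity
      rw [one_div, inv_mul_eq_div, le_div_iff₀ h7] at h1
      have h8 : (0 : ℝ) ≤ (n : ℝ) ^ M := by positivity
      nlinarith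
    have h9 : ((M * G (n + 1) M : ℕ) : ℝ) ≤ a n := by
      refine le_trans ?_ (h6.trans (hgrow n))
      exact_mod_cast h5
    exact_mod_cast h9
  have hspec : ∀ n, mm (n + 1) (a n) * G (n + 1) (mm (n + 1) (a n)) ≤ a n := by
    intro n
    have := Nat.findGreatest_spec (P := fun m => m * G (n + 1) m ≤ a n) (n := n + 1)
      (Nat.zero_le _) (by simp)
    exact this
  refine ⟨a, hmono, hpos, ?_, ?_⟩
  · -- ratio
    have hM : Tendsto (fun n => (mm (n + 1) (a n) : ℝ)) atTop atTop := by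
      refine tendsto_natCast_atTop_atTop.comp ?_
      exact tendsto_atTop.2 hmm
    have haT : Tendsto (fun n => (a n : ℝ)) atTop atTop :=
      tendsto_natCast_atTop_atTop.comp hmono.tendsto_atTop
    have hup : Tendsto (fun n => η + (a n : ℝ)⁻¹ + (mm (n + 1) (a n) : ℝ)⁻¹) atTop (𝓝 η) := by
      have := ((tendsto_const_nhds (x := η)).add haT.inv_tendsto_atTop).add
        hM.inv_tendsto_atTop
      simpa using this
    refine tendsto_of_tendsto_of_tendsto_of_le_of_le' tendsto_const_nhds hup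
      (Eventually.of_forall fun n => ?_) ?_
    · rw [le_div_iff₀ (hposR n)]
      exact (ha n).1
    · filter_upwards [hmm 1] with n hn
      have h1 := (ha n).2.1
      rw [hcard] at h1
      have h2 := hspec n
      have h3 : (0 : ℝ) < mm (n + 1) (a n) := by exact_mod_cast hn
      have h4 : ((mm (n + 1) (a n) : ℕ) : ℝ) * G (n + 1) (mm (n + 1) (a n)) ≤ a n := by
        exact_mod_cast h2
      rw [div_le_iff₀ (hposR n), add_mul, add_mul, inv_mul_cancel₀ (hposR n).ne']
      have h5 : (G (n + 1) (mm (n + 1) (a n)) : ℝ) ≤ (mm (n + 1) (a n) : ℝ)⁻¹ * a n := by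
        rw [inv_mul_eq_div, le_div_iff₀ h3]
        linarith
      linarith
  · intro m
    obtain ⟨N, hN⟩ := (eventually_atTop.1 (hmm m))
    refine ⟨N + 1, fun n hn => ?_⟩
    obtain ⟨k, rfl⟩ : ∃ k, n = k + 1 := ⟨n - 1, by omega⟩
    rw [S_succ a (k + 1)]
    have h1 := (ha k).2.2
    rw [hcard] at h1
    refine cum_step (F := (B ((Finset.range (k + 1)).image a) : Set ℤ)) (continuous_S a (k + 1))
      (S_mem a (k + 1) _ ?_) (by exact_mod_cast (hpos (k + 1)).ne') (mm (k + 1) (a k))
      ?_ ?_ h1 m (hN k (by omega))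
    · intro i hi
      exact Finset.mem_image_of_mem _ (Finset.mem_range.2 hi)
    · exact_mod_cast zero_mem_B _
    · intro f hf
      have := neg_mem_B ((Finset.range (k + 1)).image a) f (by exact_mod_cast hf)
      exact_mod_cast this

/-- **Q1 is true.** For every real `η > 1` there is a strictly increasing sequence of positive
integers `(a_k)` with `a_{k+1} / a_k → η` such that `κ_m(S_n) / n → κ̃_m` for every `m ≥ 1`;
moreover `κ_m(S_n) - n κ̃_m` is constant for all large `n`, for every `m`. -/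
theorem result : ∀ η : ℝ, 1 < η → ∃ a : ℕ → ℕ, StrictMono a ∧ (∀ k, 0 < a k) ∧
    Tendsto (fun k => (a (k + 1) : ℝ) / a k) atTop (𝓝 η) ∧
    (∀ m : ℕ, 1 ≤ m → Tendsto (fun n : ℕ => cumulant m (S a n) / n) atTop (𝓝 (kappaTilde m))) ∧
    (∀ m : ℕ, 1 ≤ m → ∃ (N : ℕ) (C : ℝ), ∀ n, N ≤ n →
      cumulant m (S a n) - n * kappaTilde m = C) := by
  intro η hη
  obtain ⟨a, h1, h2, h3, h4⟩ := main η hη
  have hrec : ∀ m : ℕ, ∃ N : ℕ, ∀ n, N ≤ n → cumulant m (S a (n + 1)) =
      cumulant m (S a n) + kappaTilde m := h4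
  have hconst : ∀ m : ℕ, ∃ (N : ℕ) (C : ℝ), ∀ n, N ≤ n →
      cumulant m (S a n) - n * kappaTilde m = C := by
    intro m
    obtain ⟨N, hN⟩ := hrec m
    refine ⟨N, cumulant m (S a N) - N * kappaTilde m, fun n hn => ?_⟩
    induction n, hn using Nat.le_induction with
    | base => rfl
    | succ n hn ih =>
      rw [hN n hn, ← ih]
      push_cast
      ring
  refine ⟨a, h1, h2, h3, fun m _ => ?_, fun m _ => hconst m⟩
  obtain ⟨N, C, hC⟩ := hconst m
  have hT : Tendsto (fun n : ℕ => C / (n : ℝ) + kappaTilde m) atTop (𝓝 (0 + kappaTilde m)) :=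
    (tendsto_const_div_atTop_nhds_zero_nat C).add tendsto_const_nhds
  rw [zero_add] at hT
  refine hT.congr' ?_
  filter_upwards [eventually_ge_atTop N, eventually_gt_atTop 0] with n hn hn0
  have h5 : (n : ℝ) ≠ 0 := by exact_mod_cast hn0.ne'
  have h6 := hC n hn
  field_simp
  linarith

end Pool.Agent.Results.MP_5c394f_nt.EveryRatio
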